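import Mathlib

set_option autoImplicit false
set_option linter.unusedSectionVars false

namespace Pool.Agent.Results.MP_0d27c8_co.TreeConstant

/-- The number of vertices that are external private neighbours with respect to `U`
(`w ∉ U` and `|N(w) ∩ U| = 1`) plus the number of vertices that are self private neighbours with
respect to `U` (`w ∈ U` and `N(w) ∩ U = ∅`). -/
def privateCount {V : Type} [Fintype V] [DecidableEq V] (G : SimpleGraph V) [DecidableRel G.Adj]
    (U : Finset V) : ℕ :=
  (Finset.univ.filter (fun w => w ∉ U ∧ (G.neighborFinset w ∩ U).card = 1)).card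
    + (Finset.univ.filter (fun w => w ∈ U ∧ G.neighborFinset w ∩ U = ∅)).card

/-- `ESPN(G)`: the maximum of `privateCount G U` over all vertex sets `U`. -/
def ESPN {V : Type} [Fintype V] [DecidableEq V] (G : SimpleGraph V) [DecidableRel G.Adj] : ℕ :=
  (Finset.univ : Finset (Finset V)).sup (privateCount G)

/-! ### The dynamic programming states -/

/-- state of the root: `A` in `U` and isolated, `B` in `U`, `C0`/`C1` outside `U` with no/one
neighbour in `U`, `C2` outside `U`. -/
inductive St | A | B | C0 | C1 | C2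
  deriving DecidableEq

open St

/-- state of the parent after attaching a child -/
def nxt : St → St → St
  | A, A => B | A, B => B | A, _ => A
  | B, _ => B
  | C0, A => C1 | C0, B => C1 | C0, _ => C0
  | C1, A => C2 | C1, B => C2 | C1, _ => C1
  | C2, _ => C2

/-- contribution (times five) of the child -/
def bonus : St → St → ℤ
  | A, C0 => 5 | B, C0 => 5
  | C0, A => 5 | C0, C1 => 5
  | C1, A => 5 | C1, C1 => 5
  | C2, A => 5 | C2, C1 => 5
  | _, _ => 0

/-- `relax s s'`: state `s` implies state `s'` -/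
def relax : St → St → Bool
  | A, A => true | A, B => true
  | B, B => true
  | C0, C0 => true | C0, C2 => true
  | C1, C1 => true | C1, C2 => true
  | C2, C2 => true
  | _, _ => false

/-- the six classes of rooted trees -/
def cls : Fin 6 → List (St × ℤ)
  | 0 => [(A, -4), (B, -4), (C0, -4), (C2, -4)]
  | 1 => [(A, -3), (B, -3), (C1, -3), (C2, -3)]
  | 2 => [(A, -2), (B, -2), (C2, -2)]
  | 3 => [(C1, -1), (C2, -1)]
  | 4 => [(C0, -2), (C1, -2), (C2, -2)]
  | 5 => [(C2, 0)]

lemma cls_closed : ∀ i j : Fin 6, ∃ l : Fin 6, ∀ p ∈ cls l, ∃ q ∈ cls i, ∃ r ∈ cls j,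
    relax (nxt q.1 r.1) p.1 = true ∧ p.2 ≤ q.2 + r.2 + bonus q.1 r.1 := by
  decide

/-! ### Semantics of the states -/

/-- meaning of a state: `p` says that the root is in `U`, `n` is its number of neighbours in `U` -/
def hol (s : St) (p : Prop) (n : ℕ) : Prop :=
  match s with
  | A => p ∧ n = 0
  | B => p
  | C0 => ¬ p ∧ n = 0
  | C1 => ¬ p ∧ n = 1
  | C2 => ¬ p

lemma hol_nxt {s₁ s₂ : St} {p₁ p₂ : Prop} [Decidable p₂] {n₁ n₂ n : ℕ} (h₁ : hol s₁ p₁ n₁)
    (h₂ : hol s₂ p₂ n₂) (hn : n = n₁ + if p₂ then 1 else 0) : hol (nxt s₁ s₂) p₁ n := by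
  cases s₁ <;> cases s₂ <;> simp_all [hol, nxt]

lemma bonus_le {s₁ s₂ : St} {p₁ p₂ q : Prop} [Decidable p₁] [Decidable q] {n₁ n₂ n : ℕ}
    (h₁ : hol s₁ p₁ n₁) (h₂ : hol s₂ p₂ n₂) (hn : n = (if p₁ then 1 else 0) + n₂)
    (hq : q ↔ (¬ p₂ ∧ n = 1) ∨ (p₂ ∧ n = 0)) :
    bonus s₁ s₂ ≤ 5 * ((if q then 1 else 0 : ℕ) : ℤ) := by
  have hnn : (0 : ℤ) ≤ 5 * ((if q then 1 else 0 : ℕ) : ℤ) := by positivity
  have hyes : q → (5 : ℤ) ≤ 5 * ((if q then 1 else 0 : ℕ) : ℤ) := by
    intro h; rw [if_pos h]; norm_num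
  cases s₁ <;> cases s₂ <;> simp only [bonus, hol] at h₁ h₂ ⊢ <;>
    first
    | exact hnn
    | (apply hyes; rw [hq, hn]; simp [h₁, h₂])

section semantics

variable {V : Type} [Fintype V] [DecidableEq V] (G : SimpleGraph V) [DecidableRel G.Adj]

/-- neighbours of `x` in `U` -/
def nb (U : Finset V) (x : V) : Finset V := U.filter (fun y => G.Adj x y)

/-- `x` is an external or self private neighbour -/
def good (U : Finset V) (x : V) : Prop :=
  (x ∉ U ∧ (nb G U x).card = 1) ∨ (x ∈ U ∧ (nb G U x).card = 0)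

instance (U : Finset V) (x : V) : Decidable (good G U x) := by unfold good; infer_instance

/-- number of good vertices in `S` other than the root `v` -/
def cnt (S U : Finset V) (v : V) : ℕ := ((S.erase v).filter (fun x => good G U x)).card

/-- the root `v` is in state `s` -/
def holds (s : St) (U : Finset V) (v : V) : Prop := hol s (v ∈ U) (nb G U v).card

/-- value `k` is achievable at state `s` in the rooted tree `(S, v)` -/
def Ach (S : Finset V) (v : V) (s : St) (k : ℤ) : Prop :=
  ∃ U ⊆ S, holds G s U v ∧ k + 4 * (S.card : ℤ) ≤ 5 * (cnt G S U v : ℤ)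

lemma Ach.mono {S : Finset V} {v : V} {s s' : St} {k k' : ℤ} (h : Ach G S v s k)
    (hs : relax s s' = true) (hk : k' ≤ k) : Ach G S v s' k' := by
  obtain ⟨U, hU, hh, hc⟩ := h
  refine ⟨U, hU, ?_, by linarith⟩
  unfold holds at hh ⊢
  cases s <;> cases s' <;> simp_all [relax, hol]

/-- rooted subtrees of `G`, built by attaching a child -/
inductive RT : Finset V → V → Prop
  | single (v : V) : RT {v} v
  | join (S₁ S₂ : Finset V) (v w : V) : RT S₁ v → RT S₂ w → v ∈ S₁ → w ∈ S₂ →
      Disjoint S₁ S₂ → G.Adj v w →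
      (∀ x ∈ S₁, ∀ y ∈ S₂, G.Adj x y → x = v ∧ y = w) → RT (S₁ ∪ S₂) v

/-- the combination step -/
lemma Ach.join {S₁ S₂ : Finset V} {v w : V} {s₁ s₂ : St} {k₁ k₂ : ℤ}
    (hv : v ∈ S₁) (hw : w ∈ S₂) (hd : Disjoint S₁ S₂) (hvw : G.Adj v w)
    (huniq : ∀ x ∈ S₁, ∀ y ∈ S₂, G.Adj x y → x = v ∧ y = w)
    (h₁ : Ach G S₁ v s₁ k₁) (h₂ : Ach G S₂ w s₂ k₂) :
    Ach G (S₁ ∪ S₂) v (nxt s₁ s₂) (k₁ + k₂ + bonus s₁ s₂) := by
  obtain ⟨U₁, hU₁, hh₁, hc₁⟩ := h₁
  obtain ⟨U₂, hU₂, hh₂, hc₂⟩ := h₂
  have hdd : ∀ x, x ∈ S₁ → x ∉ S₂ := fun x h1 h2 => Finset.disjoint_left.mp hd h1 h2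
  have hvU₂ : v ∉ U₂ := fun h => hdd v hv (hU₂ h)
  have hwU₁ : w ∉ U₁ := fun h => hdd w (hU₁ h) hw
  have hdU : Disjoint U₁ U₂ := Finset.disjoint_of_subset_left hU₁
    (Finset.disjoint_of_subset_right hU₂ hd)
  -- neighbourhoods
  have hnb : ∀ x, nb G (U₁ ∪ U₂) x = nb G U₁ x ∪ nb G U₂ x := by
    intro x; unfold nb; rw [Finset.filter_union]
  have hnbc : ∀ x, (nb G (U₁ ∪ U₂) x).card = (nb G U₁ x).card + (nb G U₂ x).card := by
    intro x
    rw [hnb, Finset.card_union_of_disjoint]
    exact Finset.disjoint_filter_filter hdU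
  have h1 : ∀ x ∈ S₁, x ≠ v → (nb G U₂ x).card = 0 := by
    intro x hx hxv
    rw [Finset.card_eq_zero]
    unfold nb
    rw [Finset.filter_eq_empty_iff]
    intro y hy hxy
    exact hxv (huniq x hx y (hU₂ hy) hxy).1
  have h2 : ∀ x ∈ S₂, x ≠ w → (nb G U₁ x).card = 0 := by
    intro x hx hxw
    rw [Finset.card_eq_zero]
    unfold nb
    rw [Finset.filter_eq_empty_iff]
    intro y hy hxy
    exact hxw (huniq y (hU₁ hy) x hx hxy.symm).2
  have h3 : (nb G U₂ v).card = if w ∈ U₂ then 1 else 0 := by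
    have : nb G U₂ v = if w ∈ U₂ then {w} else ∅ := by
      ext y
      unfold nb
      by_cases hwU : w ∈ U₂
      · rw [if_pos hwU, Finset.mem_filter, Finset.mem_singleton]
        constructor
        · rintro ⟨hy, hvy⟩
          exact (huniq v hv y (hU₂ hy) hvy).2
        · rintro rfl
          exact ⟨hwU, hvw⟩
      · rw [if_neg hwU, Finset.mem_filter]
        constructor
        · rintro ⟨hy, hvy⟩
          have := (huniq v hv y (hU₂ hy) hvy).2
          exact absurd (this ▸ hy) hwU
        · intro h; exact absurd h (Finset.notMem_empty _)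
    rw [this]
    split_ifs <;> simp
  have h4 : (nb G U₁ w).card = if v ∈ U₁ then 1 else 0 := by
    have : nb G U₁ w = if v ∈ U₁ then {v} else ∅ := by
      ext y
      unfold nb
      by_cases hvU : v ∈ U₁
      · rw [if_pos hvU, Finset.mem_filter, Finset.mem_singleton]
        constructor
        · rintro ⟨hy, hwy⟩
          exact (huniq y (hU₁ hy) w hw hwy.symm).1
        · rintro rfl
          exact ⟨hvU, hvw.symm⟩
      · rw [if_neg hvU, Finset.mem_filter]
        constructor
        · rintro ⟨hy, hwy⟩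
          have := (huniq y (hU₁ hy) w hw hwy.symm).1
          exact absurd (this ▸ hy) hvU
        · intro h; exact absurd h (Finset.notMem_empty _)
    rw [this]
    split_ifs <;> simp
  -- memberships
  have m1 : ∀ x ∈ S₁, (x ∈ U₁ ∪ U₂ ↔ x ∈ U₁) := by
    intro x hx
    rw [Finset.mem_union]
    exact ⟨fun h => h.resolve_right (fun h' => hdd x hx (hU₂ h')), Or.inl⟩
  have m2 : ∀ x ∈ S₂, (x ∈ U₁ ∪ U₂ ↔ x ∈ U₂) := by
    intro x hx
    rw [Finset.mem_union]
    exact ⟨fun h => h.resolve_left (fun h' => hdd x (hU₁ h') hx), Or.inr⟩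
  have g1 : ∀ x ∈ S₁.erase v, (good G (U₁ ∪ U₂) x ↔ good G U₁ x) := by
    intro x hx
    rw [Finset.mem_erase] at hx
    unfold good
    rw [m1 x hx.2, hnbc x, h1 x hx.2 hx.1, add_zero]
  have g2 : ∀ x ∈ S₂.erase w, (good G (U₁ ∪ U₂) x ↔ good G U₂ x) := by
    intro x hx
    rw [Finset.mem_erase] at hx
    unfold good
    rw [m2 x hx.2, hnbc x, h2 x hx.2 hx.1, zero_add]
  -- count
  have hsplit : (S₁ ∪ S₂).erase v = (S₁.erase v ∪ S₂.erase w) ∪ {w} := by
    ext x
    simp only [Finset.mem_erase, Finset.mem_union, Finset.mem_singleton]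
    constructor
    · rintro ⟨hxv, hx | hx⟩
      · exact Or.inl (Or.inl ⟨hxv, hx⟩)
      · by_cases hxw : x = w
        · exact Or.inr hxw
        · exact Or.inl (Or.inr ⟨hxw, hx⟩)
    · rintro ((⟨hxv, hx⟩ | ⟨hxw, hx⟩) | rfl)
      · exact ⟨hxv, Or.inl hx⟩
      · exact ⟨fun h => hdd v hv (h ▸ hx), Or.inr hx⟩
      · exact ⟨fun h => hdd v hv (h ▸ hw), Or.inr hw⟩
  have hcnt : cnt G (S₁ ∪ S₂) (U₁ ∪ U₂) v = cnt G S₁ U₁ v + cnt G S₂ U₂ w
      + if good G (U₁ ∪ U₂) w then 1 else 0 := by
    unfold cnt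
    rw [hsplit, Finset.filter_union, Finset.filter_union, Finset.card_union_of_disjoint,
      Finset.card_union_of_disjoint]
    · congr 1
      · congr 1
        · exact congrArg _ (Finset.filter_congr g1)
        · exact congrArg _ (Finset.filter_congr g2)
      · rw [Finset.filter_singleton]
        split_ifs <;> simp
    · rw [Finset.disjoint_left]
      intro x hx hx'
      rw [Finset.mem_filter, Finset.mem_erase] at hx hx'
      exact hdd x hx.1.2 hx'.1.2
    · rw [Finset.disjoint_left]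
      intro x hx hx'
      rw [Finset.mem_filter, Finset.mem_singleton] at hx'
      rw [Finset.mem_union, Finset.mem_filter, Finset.mem_filter, Finset.mem_erase,
        Finset.mem_erase] at hx
      rcases hx with hx | hx
      · exact hdd x hx.1.2 (hx'.1 ▸ hw)
      · exact hx.1.1 hx'.1
  have hcardS : (S₁ ∪ S₂).card = S₁.card + S₂.card := Finset.card_union_of_disjoint hd
  refine ⟨U₁ ∪ U₂, Finset.union_subset_union hU₁ hU₂, ?_, ?_⟩
  · -- state of the root
    have e2 := hnbc v
    rw [h3] at e2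
    unfold holds at hh₁ hh₂ ⊢
    rw [m1 v hv]
    exact hol_nxt hh₁ hh₂ e2
  · -- the value
    have e2 := hnbc w
    rw [h4] at e2
    have hgw : good G (U₁ ∪ U₂) w ↔ (w ∉ U₂ ∧ (nb G (U₁ ∪ U₂) w).card = 1) ∨
        (w ∈ U₂ ∧ (nb G (U₁ ∪ U₂) w).card = 0) := by
      unfold good
      rw [m2 w hw]
    have hb : bonus s₁ s₂ ≤ 5 * ((if good G (U₁ ∪ U₂) w then 1 else 0 : ℕ) : ℤ) :=
      bonus_le hh₁ hh₂ e2 hgw
    rw [hcnt, hcardS]
    push_cast at hb ⊢
    linarith

/-- the invariant -/
lemma RT.class {S : Finset V} {v : V} (h : RT G S v) :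
    ∃ l : Fin 6, ∀ p ∈ cls l, Ach G S v p.1 p.2 := by
  induction h with
  | single v =>
    refine ⟨0, ?_⟩
    have e1 : Ach G {v} v A (-4) := by
      refine ⟨{v}, Finset.Subset.refl _, ⟨Finset.mem_singleton_self v, ?_⟩, by simp⟩
      rw [Finset.card_eq_zero]
      unfold nb
      rw [Finset.filter_eq_empty_iff]
      intro y hy
      rw [Finset.mem_singleton] at hy
      subst hy
      exact G.loopless.irrefl _
    have e2 : Ach G {v} v C0 (-4) := by
      refine ⟨∅, Finset.empty_subset _, ⟨Finset.notMem_empty _, by simp [nb]⟩, by simp⟩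
    intro p hp
    simp only [cls, List.mem_cons, List.not_mem_nil, or_false] at hp
    rcases hp with rfl | rfl | rfl | rfl
    · exact e1
    · exact e1.mono G (by rfl) le_rfl
    · exact e2
    · exact e2.mono G (by rfl) le_rfl
  | join S₁ S₂ v w _ _ hv hw hd hvw huniq ih₁ ih₂ =>
    obtain ⟨i, hi⟩ := ih₁
    obtain ⟨j, hj⟩ := ih₂
    obtain ⟨l, hl⟩ := cls_closed i j
    refine ⟨l, fun p hp => ?_⟩
    obtain ⟨q, hq, r, hr, hrel, hle⟩ := hl p hp
    exact (Ach.join G hv hw hd hvw huniq (hi q hq) (hj r hr)).mono G hrel hle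

end semantics

/-! ### Every tree is built by attaching children -/

section structure_

variable {V : Type} [Fintype V] [DecidableEq V] (G : SimpleGraph V) [DecidableRel G.Adj]

/-- reachability inside `S` -/
def Rch (S : Finset V) : V → V → Prop := Relation.ReflTransGen (fun a b => G.Adj a b ∧ b ∈ S)

lemma exists_walk {S : Finset V} {v w y : V} (hv : v ∉ S) (hvw : v ≠ w) (h : Rch G S w y) :
    ∃ p : G.Walk w y, v ∉ p.support := by
  unfold Rch at h
  induction h with
  | refl => exact ⟨SimpleGraph.Walk.nil, by simpa using hvw⟩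
  | tail _ hbc ih =>
    obtain ⟨p, hp⟩ := ih
    refine ⟨p.concat hbc.1, ?_⟩
    rw [SimpleGraph.Walk.support_concat, List.mem_append,
      List.mem_singleton]
    rintro (h | h)
    · exact hp h
    · exact hv (h ▸ hbc.2)

lemma acyc (hG : G.IsAcyclic) {S : Finset V} {v w y : V} (hv : v ∉ S) (hvw : G.Adj v w)
    (hvy : G.Adj v y) (h : Rch G S w y) : y = w := by
  obtain ⟨p, hp⟩ := exists_walk G hv hvw.ne h
  have hq : (SimpleGraph.Walk.cons hvw p.bypass).IsPath := by
    rw [SimpleGraph.Walk.cons_isPath_iff]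
    exact ⟨p.bypass_isPath, fun h => hp (p.support_bypass_subset_support h)⟩
  have := hG.eq_snd_of_adj_start hq hvy (SimpleGraph.Walk.end_mem_support _)
  simpa using this

lemma rt_of_connected (hG : G.IsAcyclic) (n : ℕ) :
    ∀ (S : Finset V) (v : V), S.card = n → v ∈ S → (∀ x ∈ S, Rch G S v x) → RT G S v := by
  classical
  induction n using Nat.strong_induction_on with
  | _ n ih =>
    intro S v hn hv hconn
    by_cases hS : S = {v}
    · rw [hS]; exact RT.single v
    obtain ⟨x, hx, hxv⟩ : ∃ x ∈ S, x ≠ v := by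
      by_contra hcon
      push Not at hcon
      exact hS (Finset.eq_singleton_iff_unique_mem.mpr ⟨hv, hcon⟩)
    obtain ⟨w, hvw, hwS⟩ : ∃ w, G.Adj v w ∧ w ∈ S := by
      rcases Relation.ReflTransGen.cases_head (hconn x hx) with h | ⟨w, hw, _⟩
      · exact absurd h.symm hxv
      · exact ⟨w, hw⟩
    have hwv : w ≠ v := hvw.ne'
    set S' := S.erase v with hS'
    have hvS' : v ∉ S' := Finset.notMem_erase v S
    set S₂ := S'.filter (fun y => Rch G S' w y) with hS₂
    set S₁ := S \ S₂ with hS₁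
    have hwS₂ : w ∈ S₂ := by
      rw [hS₂, Finset.mem_filter]
      exact ⟨Finset.mem_erase.mpr ⟨hwv, hwS⟩, Relation.ReflTransGen.refl⟩
    have hS₂S : S₂ ⊆ S := (Finset.filter_subset _ _).trans (Finset.erase_subset _ _)
    have hvS₂ : v ∉ S₂ := fun h => hvS' (Finset.mem_filter.mp h).1
    have hvS₁ : v ∈ S₁ := Finset.mem_sdiff.mpr ⟨hv, hvS₂⟩
    have hwS₁ : w ∉ S₁ := fun h => (Finset.mem_sdiff.mp h).2 hwS₂
    have hedge : ∀ x ∈ S₁, ∀ y ∈ S₂, G.Adj x y → x = v := by
      intro x hx y hy hxy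
      by_contra hxv
      rw [hS₁, Finset.mem_sdiff] at hx
      apply hx.2
      rw [hS₂, Finset.mem_filter] at hy ⊢
      have hxS' : x ∈ S' := Finset.mem_erase.mpr ⟨hxv, hx.1⟩
      exact ⟨hxS', Relation.ReflTransGen.tail hy.2 ⟨hxy.symm, hxS'⟩⟩
    have huniq : ∀ x ∈ S₁, ∀ y ∈ S₂, G.Adj x y → x = v ∧ y = w := by
      intro x hx y hy hxy
      have h1 := hedge x hx y hy hxy
      subst h1
      exact ⟨rfl, acyc G hG hvS' hvw hxy (Finset.mem_filter.mp hy).2⟩
    have hcard₂ : S₂.card < n := by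
      rw [← hn]
      exact Finset.card_lt_card ((Finset.ssubset_iff_of_subset hS₂S).mpr ⟨v, hv, hvS₂⟩)
    have hcard₁ : S₁.card < n := by
      rw [← hn]
      exact Finset.card_lt_card
        ((Finset.ssubset_iff_of_subset Finset.sdiff_subset).mpr ⟨w, hwS, hwS₁⟩)
    have hconn₂ : ∀ y ∈ S₂, Rch G S₂ w y := by
      intro y hy
      have hy2 := (Finset.mem_filter.mp hy).2
      clear hy
      unfold Rch at hy2
      induction hy2 with
      | refl => exact Relation.ReflTransGen.refl
      | tail hab hbc ih' =>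
        refine Relation.ReflTransGen.tail ih' ⟨hbc.1, ?_⟩
        rw [hS₂, Finset.mem_filter]
        exact ⟨hbc.2, Relation.ReflTransGen.tail hab hbc⟩
    have hconn₁ : ∀ y ∈ S₁, Rch G S₁ v y := by
      intro y hy
      have hy2 := hconn y (Finset.mem_sdiff.mp hy).1
      unfold Rch at hy2
      induction hy2 with
      | refl => exact Relation.ReflTransGen.refl
      | @tail b c hab hbc ih' =>
        by_cases hb : b ∈ S₁
        · exact Relation.ReflTransGen.tail (ih' hb) ⟨hbc.1, hy⟩
        · have hbS : b ∈ S := by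
            rcases Relation.ReflTransGen.cases_tail hab with h | ⟨z, _, hz⟩
            · rw [h]; exact hv
            · exact hz.2
          have hbS₂ : b ∈ S₂ := by
            by_contra h
            exact hb (Finset.mem_sdiff.mpr ⟨hbS, h⟩)
          have := hedge c hy b hbS₂ hbc.1.symm
          rw [this]
          exact Relation.ReflTransGen.refl
    have hdisj : Disjoint S₁ S₂ := Finset.sdiff_disjoint
    have hunion : S₁ ∪ S₂ = S := Finset.sdiff_union_of_subset hS₂S
    rw [← hunion]
    exact RT.join S₁ S₂ v w (ih _ hcard₁ S₁ v rfl hvS₁ hconn₁) (ih _ hcard₂ S₂ w rfl hwS₂ hconn₂)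
      hvS₁ hwS₂ hdisj hvw huniq

lemma rt_of_tree (hG : G.IsTree) (v : V) : RT G Finset.univ v := by
  have hr : ∀ x, Rch G Finset.univ v x := by
    intro x
    obtain ⟨p⟩ := hG.connected.preconnected v x
    induction p with
    | nil => exact Relation.ReflTransGen.refl
    | cons h _ ih => exact Relation.ReflTransGen.head ⟨h, Finset.mem_univ _⟩ ih
  exact rt_of_connected G hG.isAcyclic _ Finset.univ v rfl (Finset.mem_univ v) fun x _ => hr x

lemma privateCount_eq (U : Finset V) (v : V) :
    privateCount G U = cnt G Finset.univ U v + if good G U v then 1 else 0 := by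
  have h1 : ∀ x, G.neighborFinset x ∩ U = nb G U x := by
    intro x
    ext y
    simp [nb, and_comm]
  have h2 : privateCount G U = (Finset.univ.filter (fun x => good G U x)).card := by
    unfold privateCount good
    rw [Finset.filter_or, Finset.card_union_of_disjoint]
    · simp only [h1, Finset.card_eq_zero]
    · rw [Finset.disjoint_left]
      intro x hx hx'
      rw [Finset.mem_filter] at hx hx'
      exact hx.2.1 hx'.2.1
  rw [h2]
  unfold cnt
  conv_lhs => rw [← Finset.insert_erase (Finset.mem_univ v)]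
  rw [Finset.filter_insert]
  split_ifs with hg
  · rw [Finset.card_insert_of_notMem]
    simp
  · simp

theorem lower_bound (hG : G.IsTree) : 4 * (Fintype.card V : ℤ) ≤ 5 * (ESPN G : ℤ) := by
  obtain ⟨v⟩ := hG.connected.nonempty
  obtain ⟨l, hl⟩ := (rt_of_tree G hG v).class
  have hmax : ∀ U, privateCount G U ≤ ESPN G := fun U =>
    Finset.le_sup (f := privateCount G) (Finset.mem_univ U)
  have key : ∀ (s : St) (k : ℤ), Ach G Finset.univ v s k →
      ((s = A ∨ s = C1) ∧ -5 ≤ k) ∨ 0 ≤ k → 4 * (Fintype.card V : ℤ) ≤ 5 * (ESPN G : ℤ) := by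
    rintro s k ⟨U, _, hh, hc⟩ hk
    have h1 := hmax U
    rw [privateCount_eq G U v] at h1
    rw [Finset.card_univ] at hc
    rcases hk with ⟨hs, hk⟩ | hk
    · have hgood : good G U v := by
        unfold holds at hh
        rcases hs with rfl | rfl
        · exact Or.inr hh
        · exact Or.inl hh
      rw [if_pos hgood] at h1
      omega
    · split_ifs at h1 <;> omega
  fin_cases l
  · exact key A (-4) (hl (A, -4) (by simp [cls])) (by norm_num)
  · exact key A (-3) (hl (A, -3) (by simp [cls])) (by norm_num)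
  · exact key A (-2) (hl (A, -2) (by simp [cls])) (by norm_num)
  · exact key C1 (-1) (hl (C1, -1) (by simp [cls])) (by norm_num)
  · exact key C1 (-2) (hl (C1, -2) (by simp [cls])) (by norm_num)
  · exact key C2 0 (hl (C2, 0) (by simp [cls])) (by norm_num)

end structure_

/-! ### The extremal tree on five vertices -/

/-- The tree with edges `01, 02, 03, 34`. -/
def T5 : SimpleGraph (Fin 5) where
  Adj a b := (a, b) ∈ ([(0, 1), (1, 0), (0, 2), (2, 0), (0, 3), (3, 0), (3, 4), (4, 3)] :
    List (Fin 5 × Fin 5))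
  symm := ⟨by decide⟩
  loopless := ⟨by decide⟩

instance : DecidableRel T5.Adj := fun a b => by unfold T5; infer_instance

lemma T5_isTree : T5.IsTree := by
  rw [SimpleGraph.isTree_iff_connected_and_card]
  constructor
  · have h1 : T5.Adj 0 1 := by decide
    have h2 : T5.Adj 0 2 := by decide
    have h3 : T5.Adj 0 3 := by decide
    have h4 : T5.Adj 3 4 := by decide
    have hr : ∀ x, T5.Reachable 0 x := by
      intro x
      fin_cases x
      · exact SimpleGraph.Reachable.refl _
      · exact h1.reachable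
      · exact h2.reachable
      · exact h3.reachable
      · exact h3.reachable.trans h4.reachable
    exact ⟨fun x y => (hr x).symm.trans (hr y)⟩
  · rw [Nat.card_eq_fintype_card, ← SimpleGraph.edgeFinset_card]
    simp only [Nat.card_eq_fintype_card, Fintype.card_fin]
    decide

lemma T5_ESPN : ESPN T5 = 4 := by
  decide +kernel

/-- **Main theorem.** `4/5` is the largest constant `c` such that `ESPN(T) ≥ c n(T)` for every
finite tree `T`. -/
theorem result :
    IsGreatest {c : ℝ | ∀ (V : Type) [Fintype V] [DecidableEq V] (T : SimpleGraph V)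
      [DecidableRel T.Adj], T.IsTree → c * (Fintype.card V : ℝ) ≤ (ESPN T : ℝ)} (4 / 5) := by
  constructor
  · intro V _ _ T _ hT
    have h := lower_bound T hT
    have h' : 4 * (Fintype.card V : ℝ) ≤ 5 * (ESPN T : ℝ) := by exact_mod_cast h
    linarith
  · intro c hc
    have h := hc (Fin 5) T5 T5_isTree
    rw [T5_ESPN, Fintype.card_fin] at h
    norm_num at h
    linarith

end Pool.Agent.Results.MP_0d27c8_co.TreeConstant
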